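import Pool.Agent.Helper91.IP.St.Stubs

/-!
# Project IP, piece B1: doubling
-/

namespace Pool.Agent.Helper33.IP

open Finset Equiv Matrix Pool.Agent.Helper91.IP

variable {V : Type} [Fintype V] [DecidableEq V]

theorem dif_self (f : Perm V → ℝ) (x : V) : dif f x x = 0 := by
  unfold dif
  apply Finset.sum_eq_zero
  intro s _
  rw [Equiv.swap_self]
  have h : (Equiv.refl V : Perm V) * s = s := by
    ext i
    rfl
  rw [h]
  ring

theorem dif_comm (f : Perm V → ℝ) (x y : V) : dif f x y = dif f y x := by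
  unfold dif
  rw [Equiv.swap_comm]

theorem sum_erase_eq (g : V → ℝ) (x : V) : ∑ y ∈ univ.erase x, g y = ∑ y, g y - g x := by
  have h := Finset.sum_erase_add univ g (Finset.mem_univ x)
  linarith

theorem point_ineq (P : V → V → ℝ) (hn : ∀ x y, 0 ≤ P x y)
    (hr : ∀ x, ∑ y, P x y = 1) (f : Perm V → ℝ) (x : V) :
    ∑ y, ∑ z, P x y * P x z * dif f y z ≤ 2 * ∑ y, P x y * dif f x y := by
  have h := octopus f x (P x) (hn x)
  have e1 : ∑ y ∈ univ.erase x, P x y = 1 - P x x := by
    rw [sum_erase_eq, hr]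
  have e2 : ∑ y ∈ univ.erase x, P x y * dif f x y = ∑ y, P x y * dif f x y := by
    rw [sum_erase_eq, dif_self]
    ring
  have e3 : ∀ y, ∑ z ∈ univ.erase x, P x y * P x z * dif f y z =
      ∑ z, P x y * P x z * dif f y z - P x y * P x x * dif f y x := by
    intro y
    rw [sum_erase_eq]
  have e4 : ∑ y ∈ univ.erase x, ∑ z ∈ univ.erase x, P x y * P x z * dif f y z =
      ∑ y, ∑ z, P x y * P x z * dif f y z - 2 * P x x * ∑ y, P x y * dif f x y := by
    rw [Finset.sum_congr rfl (fun y _ => e3 y), sum_erase_eq, Finset.sum_sub_distrib, dif_self]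
    have a1 : ∑ y, P x y * P x x * dif f y x = P x x * ∑ y, P x y * dif f x y := by
      rw [Finset.mul_sum]
      apply Finset.sum_congr rfl
      intro y _
      rw [dif_comm f y x]
      ring
    have a2 : ∑ z, P x x * P x z * dif f x z = P x x * ∑ y, P x y * dif f x y := by
      rw [Finset.mul_sum]
      apply Finset.sum_congr rfl
      intro y _
      ring
    rw [a1, a2]
    ring
  rw [e4, e1, e2] at h
  linarith

/-- IP-B1 -/
theorem En_kmul_self (P : V → V → ℝ) (hs : ∀ x y, P x y = P y x) (hn : ∀ x y, 0 ≤ P x y)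
    (hr : ∀ x, ∑ y, P x y = 1) (f : Perm V → ℝ) : En (kmul P P) f ≤ 2 * En P f := by
  have h : ∑ x, ∑ y, ∑ z, P x y * P x z * dif f y z ≤ ∑ x, 2 * ∑ y, P x y * dif f x y :=
    Finset.sum_le_sum fun x _ => point_ineq P hn hr f x
  have e : ∑ x, ∑ y, kmul P P x y * dif f x y = ∑ x, ∑ y, ∑ z, P x y * P x z * dif f y z := by
    have e1 : ∑ x, ∑ y, ∑ z, P x y * P x z * dif f y z =
        ∑ y, ∑ z, ∑ x, P x y * P x z * dif f y z := by
      rw [Finset.sum_comm]
      apply Finset.sum_congr rfl
      intro y _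
      rw [Finset.sum_comm]
    rw [e1]
    apply Finset.sum_congr rfl
    intro y _
    apply Finset.sum_congr rfl
    intro z _
    unfold kmul
    rw [Finset.sum_mul]
    apply Finset.sum_congr rfl
    intro x _
    rw [hs y x]
  unfold En
  rw [e]
  rw [← Finset.mul_sum] at h
  linarith

end Pool.Agent.Helper33.IP
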